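import Pool.Agent.Helper26.HN.Stmts2
import Pool.Agent.Helper49.PW.NR

/-!
# Row NRB: closed balls (the proofs of Helper99/HN/NRC.lean and Helper73/HN/NRL.lean for radii up
to `9/8 d`)
-/

set_option autoImplicit false

namespace Pool.Agent.Helper26.HN.NRBx

open MeasureTheory Filter Pool.Agent.Helper95 Pool.Agent.Helper95.PW Pool.Agent.Helper95.LN
  Pool.Agent.Helper26.HN Pool.Agent.Helper95.PW.NR49

def ST_NRC9 : Prop := ∃ C : ℝ, 0 < C ∧ ∀ (n M : ℕ) (X : Fin M → R3) (d r : ℝ) (u : Wf n) (m : ℕ),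
  Sep X d → 0 < r → r ≤ 9 / 8 * d → Sm u → Anti u → PW.sq u ≤ 2 → 1 ≤ m →
  one (nbr X r) u ≤ C * (M * (m : ℝ) ^ 3 + kin u * r ^ 2 / (m : ℝ) ^ 2)

def ST_NRL9 : Prop := ∃ C : ℝ, 0 < C ∧ ∀ (n M : ℕ) (X : Fin M → R3) (d r : ℝ) (u : Wf n),
  Sep X d → 0 < r → r ≤ 9 / 8 * d → Sm u → Anti u → PW.sq u ≤ 2 →
  one (nbr X r) u ≤ C * (M + (M : ℝ) ^ (2 / 5 : ℝ) * (kin u * r ^ 2) ^ (3 / 5 : ℝ))

/-- corners of the cubes -/
noncomputable def NRC_c (a : R3) (r : ℝ) {m : ℕ} (j : Fin 3 → Fin m) : R3 :=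
  fun i => a i - r + 2 * r / m * (j i : ℝ)

theorem NRC_sq (y : R3) : nr y ^ 2 = y 0 ^ 2 + y 1 ^ 2 + y 2 ^ 2 :=
  Real.sq_sqrt (by positivity)

theorem NRC_coord (y : R3) (i : Fin 3) : |y i| ≤ nr y := by
  have h0 : 0 ≤ nr y := Real.sqrt_nonneg _
  apply abs_le_of_sq_le_sq _ h0
  rw [NRC_sq]
  fin_cases i
  · change y 0 ^ 2 ≤ _
    nlinarith [sq_nonneg (y 1), sq_nonneg (y 2)]
  · change y 1 ^ 2 ≤ _
    nlinarith [sq_nonneg (y 0), sq_nonneg (y 2)]
  · change y 2 ^ 2 ≤ _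
    nlinarith [sq_nonneg (y 0), sq_nonneg (y 1)]

theorem NRC_cover {r : ℝ} (hr : 0 < r) {m : ℕ} (hm : 1 ≤ m) {y a : R3} (hy : nr (y - a) < r) :
    ∃ j : Fin 3 → Fin m, y ∈ cube (NRC_c a r j) (2 * r / m) := by
  have hm' : (0 : ℝ) < m := by exact_mod_cast hm
  have hl : 0 < 2 * r / m := by positivity
  have hex : ∀ i, ∃ j : Fin m, a i - r + 2 * r / m * (j : ℝ) ≤ y i ∧
      y i < a i - r + 2 * r / m * (j : ℝ) + 2 * r / m := by
    intro i
    have h0 : |y i - a i| < r := (NRC_coord (y - a) i).trans_lt hy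
    obtain ⟨h1, h2⟩ := abs_lt.1 h0
    obtain ⟨t, ht⟩ : ∃ t : ℝ, t = (y i - a i + r) / (2 * r / m) := ⟨_, rfl⟩
    have ht0 : 0 ≤ t := by
      rw [ht]
      exact div_nonneg (by linarith) hl.le
    have htm : t < m := by
      rw [ht, div_lt_iff₀ hl]
      have : (m : ℝ) * (2 * r / m) = 2 * r := by field_simp
      rw [this]
      linarith
    have ht2 : 2 * r / m * t = y i - a i + r := by
      rw [ht]
      field_simp
    have hfl : (⌊t⌋₊ : ℝ) ≤ t := Nat.floor_le ht0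
    have hfu : t < ⌊t⌋₊ + 1 := Nat.lt_floor_add_one t
    refine ⟨⟨⌊t⌋₊, (Nat.floor_lt ht0).2 htm⟩, ?_, ?_⟩
    · have h3 : 2 * r / m * (⌊t⌋₊ : ℝ) ≤ 2 * r / m * t := mul_le_mul_of_nonneg_left hfl hl.le
      change a i - r + 2 * r / m * (⌊t⌋₊ : ℝ) ≤ y i
      linarith
    · have h3 : 2 * r / m * t < 2 * r / m * (⌊t⌋₊ + 1) := mul_lt_mul_of_pos_left hfu hl
      change y i < a i - r + 2 * r / m * (⌊t⌋₊ : ℝ) + 2 * r / m
      linarith
  choose j hj using hex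
  exact ⟨j, hj⟩

/-- the cubes are inside the cube of half side `r` -/
theorem NRC_in {r : ℝ} (hr : 0 < r) {m : ℕ} (hm : 1 ≤ m) {y a : R3} {j : Fin 3 → Fin m}
    (h : y ∈ cube (NRC_c a r j) (2 * r / m)) (i : Fin 3) : -r ≤ y i - a i ∧ y i - a i < r := by
  have hm' : (0 : ℝ) < m := by exact_mod_cast hm
  have hl : 0 < 2 * r / m := by positivity
  obtain ⟨h1, h2⟩ := h i
  unfold NRC_c at h1 h2
  have h3 : 0 ≤ 2 * r / m * (j i : ℝ) := by positivity
  have h4 : ((j i : ℕ) : ℝ) + 1 ≤ m := by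
    have := (j i).isLt
    exact_mod_cast this
  have h5 := mul_le_mul_of_nonneg_left h4 hl.le
  have h6 : 2 * r / m * (m : ℝ) = 2 * r := by field_simp
  rw [h6] at h5
  constructor <;> linarith

theorem NRC_disj {M : ℕ} {X : Fin M → R3} {d r : ℝ} (hX : Sep X d) (hr : 0 < r) (hrd : r ≤ 9 / 8 * d)
    {m : ℕ} (hm : 1 ≤ m) {p p' : Fin M × (Fin 3 → Fin m)} {y : R3}
    (h : y ∈ cube (NRC_c (X p.1) r p.2) (2 * r / m))
    (h' : y ∈ cube (NRC_c (X p'.1) r p'.2) (2 * r / m)) : p = p' := by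
  have hm' : (0 : ℝ) < m := by exact_mod_cast hm
  have hl : 0 < 2 * r / m := by positivity
  have h1 : p.1 = p'.1 := by
    by_contra hne
    have h2 := hX _ _ hne
    have h3 := NRC_sq (X p.1 - X p'.1)
    simp only [Pi.sub_apply] at h3
    have h4 : (4 * d) ^ 2 ≤ nr (X p.1 - X p'.1) ^ 2 := pow_le_pow_left₀ (by linarith) h2 2
    have key : ∀ i, (X p.1 i - X p'.1 i) ^ 2 ≤ (2 * r) ^ 2 := by
      intro i
      obtain ⟨a1, a2⟩ := NRC_in hr hm h i
      obtain ⟨b1, b2⟩ := NRC_in hr hm h' i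
      apply sq_le_sq'
      · linarith
      · linarith
    have k0 := key 0
    have k1 := key 1
    have k2 := key 2
    have h5 : r ^ 2 ≤ (9 / 8 * d) ^ 2 := pow_le_pow_left₀ hr.le hrd 2
    nlinarith
  apply Prod.ext h1
  rw [h1] at h
  funext i
  obtain ⟨a1, a2⟩ := h i
  obtain ⟨b1, b2⟩ := h' i
  unfold NRC_c at a1 a2 b1 b2
  have h1 : ((p.2 i : ℕ) : ℝ) < (p'.2 i : ℕ) + 1 := by
    by_contra hc
    push Not at hc
    have := mul_le_mul_of_nonneg_left hc hl.le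
    nlinarith
  have h2 : ((p'.2 i : ℕ) : ℝ) < (p.2 i : ℕ) + 1 := by
    by_contra hc
    push Not at hc
    have := mul_le_mul_of_nonneg_left hc hl.le
    nlinarith
  have h3 : (p.2 i : ℕ) < (p'.2 i : ℕ) + 1 := by exact_mod_cast h1
  have h4 : (p'.2 i : ℕ) < (p.2 i : ℕ) + 1 := by exact_mod_cast h2
  apply Fin.ext
  omega

theorem NRC_meas {n : ℕ} (k : Fin n) (a : R3) (r : ℝ) :
    MeasurableSet {x : Cf n | nr (x k - a) < r} :=
  (isOpen_lt (nr_cont.comp ((continuous_apply k).sub continuous_const))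
    continuous_const).measurableSet

theorem NRC_lower {n : ℕ} (k : Fin n) (a : R3) {r : ℝ} (hr : 0 < r) {m : ℕ} (hm : 1 ≤ m)
    {f : Cf n → ℝ} (hf : Integrable f) (h0 : ∀ x, 0 ≤ f x) :
    ∫ x in {x : Cf n | nr (x k - a) < r}, f x ≤
      ∑ j : Fin 3 → Fin m, ∫ x in {x : Cf n | x k ∈ cube (NRC_c a r j) (2 * r / m)}, f x := by
  have hX : Sep (fun _ : Fin 1 => a) r := by
    intro i j hij
    exact absurd (Subsingleton.elim i j) hij
  rw [← integral_iUnion_fintype (fun j => cube_meas' k _ _) (by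
    intro j j' hjj
    rw [Function.onFun, Set.disjoint_left]
    intro x hx hx'
    apply hjj
    have h5 := NRC_disj (X := fun _ : Fin 1 => a) (d := r) hX hr (by linarith) hm
      (p := ((0 : Fin 1), j)) (p' := ((0 : Fin 1), j')) hx hx'
    exact congrArg Prod.snd h5) fun j => hf.integrableOn]
  apply setIntegral_mono_set hf.integrableOn
  · exact Filter.Eventually.of_forall fun x => h0 x
  · apply Filter.Eventually.of_forall
    intro x hx
    obtain ⟨j, hj⟩ := NRC_cover hr hm (show nr (x k - a) < r from hx)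
    exact Set.mem_iUnion.2 ⟨j, hj⟩

theorem NRC_upper {n M : ℕ} {X : Fin M → R3} {d r : ℝ} (hX : Sep X d) (hr : 0 < r) (hrd : r ≤ 9 / 8 * d)
    (k : Fin n) {m : ℕ} (hm : 1 ≤ m) {f : Cf n → ℝ} (hf : Integrable f) (h0 : ∀ x, 0 ≤ f x) :
    ∑ p : Fin M × (Fin 3 → Fin m),
      ∫ x in {x : Cf n | x k ∈ cube (NRC_c (X p.1) r p.2) (2 * r / m)}, f x ≤ ∫ x, f x := by
  rw [← integral_iUnion_fintype (fun p => cube_meas' k _ _) (by
    intro p p' hpp
    rw [Function.onFun, Set.disjoint_left]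
    intro x hx hx'
    exact hpp (NRC_disj hX hr hrd hm hx hx')) fun p => hf.integrableOn]
  exact setIntegral_le_integral hf (Filter.Eventually.of_forall fun x => h0 x)

theorem NRC_one {n M : ℕ} (X : Fin M → R3) (u : Wf n) (hu : Sm u) (r : ℝ) :
    one (nbr X r) u = ∑ k, ∑ s, ∑ i, ∫ x in {x : Cf n | nr (x k - X i) < r}, u s x ^ 2 := by
  unfold one
  rw [Finset.sum_comm]
  refine Finset.sum_congr rfl fun s _ => ?_
  have hint := int_sq (hu s).1.continuous (hu s).2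
  have h2 : ∀ x : Cf n, (∑ k, nbr X r (x k)) * u s x ^ 2 =
      ∑ k, ∑ i, Set.indicator {x : Cf n | nr (x k - X i) < r} (fun x => u s x ^ 2) x := by
    intro x
    rw [Finset.sum_mul]
    refine Finset.sum_congr rfl fun k _ => ?_
    unfold nbr
    rw [Finset.sum_mul]
    refine Finset.sum_congr rfl fun i _ => ?_
    by_cases hx : nr (x k - X i) < r
    · rw [Set.indicator_of_mem (show x ∈ {x : Cf n | nr (x k - X i) < r} from hx), if_pos hx,
        one_mul]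
    · rw [Set.indicator_of_notMem (show x ∉ {x : Cf n | nr (x k - X i) < r} from hx), if_neg hx,
        zero_mul]
  simp only [h2]
  rw [integral_finsetSum _ fun k _ => integrable_finsetSum _ fun i _ =>
    hint.indicator (NRC_meas k (X i) r)]
  refine Finset.sum_congr rfl fun k _ => ?_
  rw [integral_finsetSum _ fun i _ => hint.indicator (NRC_meas k (X i) r)]
  refine Finset.sum_congr rfl fun i _ => ?_
  rw [integral_indicator (NRC_meas k (X i) r)]

theorem NRC_swap {n : ℕ} {ι : Type} [Fintype ι] (F : Fin n → (Fin n → Fin 2) → ι → ℝ) :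
    ∑ k, ∑ s, ∑ j, F k s j = ∑ j, ∑ k, ∑ s, F k s j := by
  have h : ∀ k, ∑ s, ∑ j, F k s j = ∑ j, ∑ s, F k s j := fun k => Finset.sum_comm
  rw [Finset.sum_congr rfl fun k _ => h k]
  exact Finset.sum_comm

theorem st_NRC (h1 : ST_CUB) : ST_NRC9 := by
  obtain ⟨C, hC, hcub⟩ := h1
  refine ⟨4 + 4 * C, by positivity, ?_⟩
  intro n M X d r u m hX hr hrd hu ha hsq hm
  have hm' : (0 : ℝ) < m := by exact_mod_cast hm
  have hl : 0 < 2 * r / m := by positivity
  have hdint : ∀ (k : Fin n) (s : Fin n → Fin 2),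
      Integrable (fun x => ∑ i, dv k i (u s) x ^ 2) := by
    intro k s
    apply integrable_finsetSum
    intro i _
    obtain ⟨h1, h2⟩ := dv_sm (hu s).1 (hu s).2 k i
    exact int_sq h1 h2
  have hkin := kin_nn u
  have hmain : one (nbr X r) u ≤
      (M * (m : ℝ) ^ 3) * (2 * PW.sq u) + C * (2 * r / m) ^ 2 * kin u := by
    calc one (nbr X r) u
        = ∑ k, ∑ s, ∑ i, ∫ x in {x : Cf n | nr (x k - X i) < r}, u s x ^ 2 := NRC_one X u hu r
      _ ≤ ∑ k, ∑ s, ∑ p : Fin M × (Fin 3 → Fin m),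
            ∫ x in {x : Cf n | x k ∈ cube (NRC_c (X p.1) r p.2) (2 * r / m)}, u s x ^ 2 := by
          refine Finset.sum_le_sum fun k _ => Finset.sum_le_sum fun s _ => ?_
          rw [Fintype.sum_prod_type]
          refine Finset.sum_le_sum fun i _ => ?_
          exact NRC_lower k (X i) hr hm (int_sq (hu s).1.continuous (hu s).2) fun x => sq_nonneg _
      _ = ∑ p : Fin M × (Fin 3 → Fin m), ∑ k, ∑ s,
            ∫ x in {x : Cf n | x k ∈ cube (NRC_c (X p.1) r p.2) (2 * r / m)}, u s x ^ 2 := by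
          exact NRC_swap _
      _ ≤ ∑ p : Fin M × (Fin 3 → Fin m), (2 * PW.sq u + C * (2 * r / m) ^ 2 * ∑ k, ∑ s,
            ∫ x in {x : Cf n | x k ∈ cube (NRC_c (X p.1) r p.2) (2 * r / m)},
              ∑ i, dv k i (u s) x ^ 2) := by
          exact Finset.sum_le_sum fun p _ => hcub n u _ _ hu ha hl
      _ = (M * (m : ℝ) ^ 3) * (2 * PW.sq u) + C * (2 * r / m) ^ 2 * ∑ k, ∑ s,
            ∑ p : Fin M × (Fin 3 → Fin m),
            ∫ x in {x : Cf n | x k ∈ cube (NRC_c (X p.1) r p.2) (2 * r / m)},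
              ∑ i, dv k i (u s) x ^ 2 := by
          rw [Finset.sum_add_distrib]
          congr 1
          · rw [Finset.sum_const, Finset.card_univ, Fintype.card_prod, Fintype.card_fun,
              Fintype.card_fin, Fintype.card_fin, Fintype.card_fin, nsmul_eq_mul]
            push_cast
            ring
          · rw [← Finset.mul_sum]
            congr 1
            exact (NRC_swap _).symm
      _ ≤ (M * (m : ℝ) ^ 3) * (2 * PW.sq u) + C * (2 * r / m) ^ 2 * ∑ k, ∑ s,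
            ∫ x, ∑ i, dv k i (u s) x ^ 2 := by
          have h1 : ∑ k, ∑ s, ∑ p : Fin M × (Fin 3 → Fin m),
              ∫ x in {x : Cf n | x k ∈ cube (NRC_c (X p.1) r p.2) (2 * r / m)},
                ∑ i, dv k i (u s) x ^ 2 ≤ ∑ k, ∑ s, ∫ x, ∑ i, dv k i (u s) x ^ 2 := by
            refine Finset.sum_le_sum fun k _ => Finset.sum_le_sum fun s _ => ?_
            exact NRC_upper hX hr hrd k hm (hdint k s)
              fun x => Finset.sum_nonneg fun i _ => sq_nonneg _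
          have h2 : 0 ≤ C * (2 * r / m) ^ 2 := by positivity
          have h3 := mul_le_mul_of_nonneg_left h1 h2
          linarith
      _ = (M * (m : ℝ) ^ 3) * (2 * PW.sq u) + C * (2 * r / m) ^ 2 * kin u := by rw [kin_eq u hu]
  have h3 : (M * (m : ℝ) ^ 3) * (2 * PW.sq u) ≤ (M * (m : ℝ) ^ 3) * 4 :=
    mul_le_mul_of_nonneg_left (by linarith) (by positivity)
  have h4 : C * (2 * r / m) ^ 2 * kin u = 4 * C * (kin u * r ^ 2 / (m : ℝ) ^ 2) := by
    field_simp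
    ring
  rw [h4] at hmain
  have h5 : 0 ≤ kin u * r ^ 2 / (m : ℝ) ^ 2 := by positivity
  have h6 : 0 ≤ (M : ℝ) * (m : ℝ) ^ 3 := by positivity
  have h7 : 0 ≤ C * ((M : ℝ) * (m : ℝ) ^ 3) := by positivity
  nlinarith

theorem nl_kin {n : ℕ} (u : Wf n) : 0 ≤ kin u := by
  unfold kin PW.sq
  exact Finset.sum_nonneg fun k _ => Finset.sum_nonneg fun i _ => Finset.sum_nonneg fun s _ =>
    integral_nonneg fun x => sq_nonneg _

theorem nl_Q {M t : ℝ} (hM : 0 < M) (ht : 0 ≤ t) :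
    M ^ (2 / 5 : ℝ) * (M * t ^ 5) ^ (3 / 5 : ℝ) = M * t ^ 3 := by
  rw [Real.mul_rpow hM.le (by positivity), ← mul_assoc, ← Real.rpow_add hM]
  have h1 : (2 / 5 : ℝ) + 3 / 5 = 1 := by norm_num
  have h2 : (t ^ 5) ^ (3 / 5 : ℝ) = t ^ 3 := by
    rw [← Real.rpow_natCast, ← Real.rpow_natCast, ← Real.rpow_mul ht]
    norm_num
  rw [h1, h2, Real.rpow_one]

theorem NRL9 (h1 : ST_NRC9) : ST_NRL9 := by
  obtain ⟨C, hC, h⟩ := h1
  refine ⟨5 * C, by positivity, ?_⟩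
  intro n M X d r u hS hr hrd hu ha hq
  have hk := nl_kin u
  rcases Nat.eq_zero_or_pos M with rfl | hM
  · have e : one (nbr X r) u = 0 := by
      unfold one nbr
      simp
    rw [e]
    positivity
  have hM' : (0 : ℝ) < M := by exact_mod_cast hM
  obtain ⟨κ, hκ⟩ : ∃ κ : ℝ, κ = kin u * r ^ 2 := ⟨_, rfl⟩
  have hκ0 : 0 ≤ κ := by rw [hκ]; positivity
  obtain ⟨t, ht⟩ : ∃ t : ℝ, t = (κ / M) ^ (1 / 5 : ℝ) := ⟨_, rfl⟩
  have ht0 : 0 ≤ t := by rw [ht]; positivity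
  have ht5 : κ = M * t ^ 5 := by
    have h2 : t ^ 5 = κ / M := by
      rw [ht, ← Real.rpow_natCast, ← Real.rpow_mul (by positivity)]
      norm_num
    rw [h2]
    field_simp
  have hm1 : 1 ≤ max 1 ⌈t⌉₊ := le_max_left _ _
  obtain ⟨m, hm⟩ : ∃ m : ℕ, m = max 1 ⌈t⌉₊ := ⟨_, rfl⟩
  rw [← hm] at hm1
  have hm1' : (1 : ℝ) ≤ m := by exact_mod_cast hm1
  have hmt : t ≤ m := (Nat.le_ceil t).trans (by rw [hm]; exact_mod_cast le_max_right _ _)
  have hmt1 : (m : ℝ) ≤ 1 + t := by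
    rw [hm, Nat.cast_max, Nat.cast_one]
    exact max_le (by linarith) (by linarith [(Nat.ceil_lt_add_one ht0).le])
  have h2 := h n M X d r u m hS hr hrd hu ha hq hm1
  rw [← hκ] at h2 ⊢
  have hQ : (M : ℝ) ^ (2 / 5 : ℝ) * κ ^ (3 / 5 : ℝ) = M * t ^ 3 := by
    rw [ht5]
    exact nl_Q hM' ht0
  rw [hQ]
  refine h2.trans ?_
  have h3 : (m : ℝ) ^ 3 ≤ 4 * (1 + t ^ 3) := by
    have h4 : (m : ℝ) ^ 3 ≤ (1 + t) ^ 3 := pow_le_pow_left₀ (by positivity) hmt1 3
    nlinarith [mul_nonneg (add_nonneg zero_le_one ht0) (sq_nonneg (1 - t))]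
  have h5 : κ / (m : ℝ) ^ 2 ≤ M * t ^ 3 := by
    rw [div_le_iff₀ (by positivity), ht5]
    have h6 : t ^ 2 ≤ (m : ℝ) ^ 2 := pow_le_pow_left₀ ht0 hmt 2
    have h7 : 0 ≤ (M : ℝ) * t ^ 3 := by positivity
    nlinarith [mul_le_mul_of_nonneg_left h6 h7]
  have h8 : (M : ℝ) * (m : ℝ) ^ 3 ≤ M * (4 * (1 + t ^ 3)) := mul_le_mul_of_nonneg_left h3 hM'.le
  have h9 : 0 ≤ (M : ℝ) * t ^ 3 := by positivity
  have h10 : (M : ℝ) * (m : ℝ) ^ 3 + κ / (m : ℝ) ^ 2 ≤ 5 * (M + M * t ^ 3) := by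
    nlinarith
  calc C * ((M : ℝ) * (m : ℝ) ^ 3 + κ / (m : ℝ) ^ 2) ≤ C * (5 * (M + M * t ^ 3)) :=
        mul_le_mul_of_nonneg_left h10 hC.le
    _ = 5 * C * (M + M * t ^ 3) := by ring


theorem sum_ball {n M : ℕ} (X : Fin M → R3) (u : Wf n) (hu : Sm u) {ρ : ℝ} (hρ : 0 < ρ) :
    ∑ j, one (ballc (X j) ρ) u ≤ one (nbr X (9 / 8 * ρ)) u := by
  have hint : ∀ s, Integrable (fun x : Cf n => u s x ^ 2) := fun s =>
    int_sq (hu s).1.continuous (hu s).2
  have hi : ∀ (j : Fin M) s, Integrable (fun x : Cf n =>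
      (∑ k, if nr (x k - X j) < 9 / 8 * ρ then (1 : ℝ) else 0) * u s x ^ 2) := by
    intro j s
    have e : (fun x : Cf n => (∑ k, if nr (x k - X j) < 9 / 8 * ρ then (1 : ℝ) else 0) *
        u s x ^ 2) = fun x : Cf n => ∑ k, Set.indicator {x : Cf n | nr (x k - X j) < 9 / 8 * ρ}
          (fun x => u s x ^ 2) x := by
      funext x
      rw [Finset.sum_mul]
      refine Finset.sum_congr rfl fun k _ => ?_
      by_cases hx : nr (x k - X j) < 9 / 8 * ρ
      · rw [Set.indicator_of_mem (show x ∈ {x : Cf n | nr (x k - X j) < 9 / 8 * ρ} from hx),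
          if_pos hx, one_mul]
      · rw [Set.indicator_of_notMem (show x ∉ {x : Cf n | nr (x k - X j) < 9 / 8 * ρ} from hx),
          if_neg hx, zero_mul]
    rw [e]
    exact integrable_finsetSum _ fun k _ => (hint s).indicator (NRC_meas k (X j) _)
  have h1 : ∀ j, one (ballc (X j) ρ) u ≤ ∑ s, ∫ x,
      (∑ k, if nr (x k - X j) < 9 / 8 * ρ then (1 : ℝ) else 0) * u s x ^ 2 := by
    intro j
    unfold one
    refine Finset.sum_le_sum fun s _ => ?_
    refine integral_mono_of_nonneg (Eventually.of_forall fun x => ?_) (hi j s)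
      (Eventually.of_forall fun x => ?_)
    · refine mul_nonneg (Finset.sum_nonneg fun k _ => ?_) (sq_nonneg _)
      exact Set.indicator_nonneg (fun _ _ => zero_le_one) _
    · refine mul_le_mul_of_nonneg_right (Finset.sum_le_sum fun k _ => ?_) (sq_nonneg _)
      unfold ballc
      by_cases hx : x k ∈ {y : R3 | nr (y - X j) ≤ ρ}
      · rw [Set.indicator_of_mem hx]
        have hx' : nr (x k - X j) ≤ ρ := hx
        rw [if_pos (by linarith)]
      · rw [Set.indicator_of_notMem hx]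
        split_ifs
        · exact zero_le_one
        · exact le_rfl
  refine (Finset.sum_le_sum fun j _ => h1 j).trans (le_of_eq ?_)
  rw [Finset.sum_comm]
  unfold one
  refine Finset.sum_congr rfl fun s _ => ?_
  rw [← integral_finsetSum _ fun j _ => hi j s]
  refine integral_congr_ae (Eventually.of_forall fun x => ?_)
  show ∑ j, (∑ k, if nr (x k - X j) < 9 / 8 * ρ then (1 : ℝ) else 0) * u s x ^ 2 =
    (∑ k, nbr X (9 / 8 * ρ) (x k)) * u s x ^ 2
  rw [← Finset.sum_mul, Finset.sum_comm]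
  rfl

end Pool.Agent.Helper26.HN.NRBx

namespace Pool.Agent.Helper26.HN

open MeasureTheory Filter Pool.Agent.Helper95 Pool.Agent.Helper95.PW Pool.Agent.Helper95.LN

theorem NRB (h1 : ST_CUB) : ST_NRB := by
  obtain ⟨C, hC, h⟩ := NRBx.NRL9 (NRBx.st_NRC h1)
  refine ⟨2 * C, by positivity, ?_⟩
  intro n M X d ρ u hS hρ hρd hu ha hq
  have h2 := h n M X d (9 / 8 * ρ) u hS (by positivity) (by linarith) hu ha hq
  refine (NRBx.sum_ball X u hu hρ).trans (h2.trans ?_)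
  have hk := NRBx.nl_kin u
  have h3 : (kin u * (9 / 8 * ρ) ^ 2) ^ (3 / 5 : ℝ) ≤ 2 * (kin u * ρ ^ 2) ^ (3 / 5 : ℝ) := by
    have e : kin u * (9 / 8 * ρ) ^ 2 = (81 / 64) * (kin u * ρ ^ 2) := by ring
    rw [e, Real.mul_rpow (by norm_num) (by positivity)]
    refine mul_le_mul_of_nonneg_right ?_ (by positivity)
    calc ((81 / 64 : ℝ)) ^ (3 / 5 : ℝ) ≤ (81 / 64 : ℝ) ^ (1 : ℝ) :=
          Real.rpow_le_rpow_of_exponent_le (by norm_num) (by norm_num)
      _ ≤ 2 := by rw [Real.rpow_one]; norm_num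
  have h4 : (M : ℝ) ^ (2 / 5 : ℝ) * (kin u * (9 / 8 * ρ) ^ 2) ^ (3 / 5 : ℝ) ≤
      (M : ℝ) ^ (2 / 5 : ℝ) * (2 * (kin u * ρ ^ 2) ^ (3 / 5 : ℝ)) :=
    mul_le_mul_of_nonneg_left h3 (by positivity)
  have hM : (0 : ℝ) ≤ M := Nat.cast_nonneg _
  have h5 := mul_le_mul_of_nonneg_left h4 hC.le
  have h6 : 0 ≤ C * M := by positivity
  nlinarith

end Pool.Agent.Helper26.HN
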