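import Pool.Agent.Helper95.CF.Stmts

/-!
# Heavy nuclei, any number of them: part B (Pauli principle near the nuclei). Statements

`M` nuclei, `4 d ≤` mutual distances, charges `≤ z`, `1 ≤ z`, so `n ≤ z M`.
-/

set_option autoImplicit false

namespace Pool.Agent.Helper26.HN

open MeasureTheory Filter Pool.Agent.Helper95 Pool.Agent.Helper95.PW Pool.Agent.Helper95.LN

/-- number of nuclei nearer than `r` -/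
noncomputable def nbr {M : ℕ} (X : Fin M → R3) (r : ℝ) (y : R3) : ℝ :=
  ∑ j, if nr (y - X j) < r then 1 else 0

/-- row INZ (INTM): `near1 X b ≤ pot X 1`, measurable; `nbr X b ≤ M` -/
def ST_INZ : Prop := ∀ (n M : ℕ) (X : Fin M → R3) (b : ℝ) (u : Wf n), Sm u →
  (∀ s, Integrable (fun x : Cf n => (∑ k, near1 X b (x k)) * u s x ^ 2)) ∧
  ∀ s, Integrable (fun x : Cf n => (∑ k, nbr X b (x k)) * u s x ^ 2)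

/-- row NRC (CUB, INZ): sum of `ST_CUB` over the cubes `X j - (r, r, r) + l a`, `a ∈ {0..m-1}^3`,
`l = 2 r / m`; they are pairwise disjoint, as `2 r ≤ 2 d < 4 d / sqrt 3 ≤ ‖X i - X j‖` (sup norm);
result `2 sq u M m^3 + C l^2 kin u` -/
def ST_NRC : Prop := ∃ C : ℝ, 0 < C ∧ ∀ (n M : ℕ) (X : Fin M → R3) (d r : ℝ) (u : Wf n) (m : ℕ),
  Sep X d → 0 < r → r ≤ d → Sm u → Anti u → PW.sq u ≤ 2 → 1 ≤ m →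
  one (nbr X r) u ≤ C * (M * (m : ℝ) ^ 3 + kin u * r ^ 2 / (m : ℝ) ^ 2)

/-- row NRL (NRC): `M = 0` trivial; `t = (kin u r^2 / M)^(1/5)`, `m = ⌈t⌉₊` or `1` -/
def ST_NRL : Prop := ∃ C : ℝ, 0 < C ∧ ∀ (n M : ℕ) (X : Fin M → R3) (d r : ℝ) (u : Wf n),
  Sep X d → 0 < r → r ≤ d → Sm u → Anti u → PW.sq u ≤ 2 →
  one (nbr X r) u ≤ C * (M + (M : ℝ) ^ (2 / 5 : ℝ) * (kin u * r ^ 2) ^ (3 / 5 : ℝ))

/-- row DYZ (NRL, INZ): dyadic shells `b 2^(-i-1) ≤ nr < b 2^(-i)`, `i < I`, `b 2^(-I) ≤ s`,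
`b 2^(-I+1) > s` (if `I > 0`): `near1 X b ≤ near1 X s + ∑_{i<I} (2^(i+1) / b) nbr X (b 2^(-i))`;
`∑ 2^(i+1)/b ≤ 4/s`, `∑ 2^(i+1) 4^(-3i/5) = 2 ∑ 2^(-i/5)` -/
def ST_DYZ : Prop := ∃ C : ℝ, 0 < C ∧ ∀ (n M : ℕ) (X : Fin M → R3) (d s b : ℝ) (u : Wf n),
  Sep X d → 0 < s → s ≤ b → b ≤ d → Sm u → Anti u → PW.sq u ≤ 2 →
  one (near1 X b) u ≤ one (near1 X s) u +
    C * (M / s + (M : ℝ) ^ (2 / 5 : ℝ) * kin u ^ (3 / 5 : ℝ) * b ^ (1 / 5 : ℝ))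

/-- row NEZ (NRL, DYZ, INZ, HLOC): `s = min (1/z) b`; `1/r ≤ η/r^2 + 1/(4 η)` for `r < s`,
`η = K / (3 C₁ z)`, HLOC; then `a kin^(3/5) ≤ (K/3) kin + C K^(-3/2) a^(5/2)` twice:
`a = z M^(2/5) b^(1/5)`, and `a = C (z^2/K) M^(2/5) z^(-6/5)` -/
def ST_NEZ : Prop := ∃ C : ℝ, 0 < C ∧ ∀ d K : ℝ, 0 < d → 0 < K → ∃ C' : ℝ, 0 < C' ∧
  ∀ (n M : ℕ) (X : Fin M → R3) (z b : ℝ) (u : Wf n), 1 ≤ z → (n : ℝ) ≤ z * M → Sep X d →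
  0 < b → b ≤ d → Sm u → Anti u → PW.sq u ≤ 2 →
  z * one (near1 X b) u ≤ K * kin u +
    (C * K ^ (-(3 / 2) : ℝ) * z ^ (5 / 2 : ℝ) * b ^ (1 / 2 : ℝ) + C' * z ^ 2) * M

/-- row ATZ (NEZ, INZ): `b = min d (z^(-1/3))`, `near1 X d ≤ near1 X b + 1/b` (at most one nucleus
is nearer than `d`), NEZ with `K = 1` -/
def ST_ATZ : Prop := ∀ d B : ℝ, 0 < d → 0 < B → ∃ C : ℝ, 0 < C ∧
  ∀ (n M : ℕ) (X : Fin M → R3) (z : ℝ) (u : Wf n), 1 ≤ z → (n : ℝ) ≤ z * M → Sep X d →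
  Sm u → Anti u → PW.sq u ≤ 2 → kin u ≤ B * (z ^ (7 / 3 : ℝ) * M) →
  z * one (near1 X d) u ≤ C * (z ^ (7 / 3 : ℝ) * M)

/-- row ESB (DEX, KK, PHC): as `ST_ES1X` (Helper40/CF/ES1X.lean) with a free smearing radius -/
def ST_ESB : Prop := ∀ z b d : ℝ, 0 ≤ z → 0 < b → b ≤ d → ∀ (n M : ℕ)
  (X : Fin M → R3) (Z : Fin M → ℝ) (x : Cf n), Sep X d → Nuc n Z → (∀ j, Z j ≤ z) → Dist X x →
  0 ≤ Dn b X Z x ∧ 0 ≤ Rem b x ∧ 1 / 2 * Dn b X Z x + Rem b x ≤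
    Vc X Z x + (1 + z) / b * n + z * ∑ k, near1 X (2 * b) (x k)

/-- row TUZ (ESB, AED, NEZ, INZ, QHM, INTM): `QM u + nucR sq u ≤ sqrt (sq u resM) ≤ sqrt 2`,
`QM u + nucR sq u = kin u + ∑ s, ∫ Vc u^2`, ESB with `b = min 1 (d/2) z^(-1/3)`, NEZ for
`near1 X (2 b)` with `K = 1/2`, `n ≤ z M` -/
def ST_TUZ : Prop := ∀ d : ℝ, 0 < d → ∃ C : ℝ, 0 < C ∧ ∀ (n M : ℕ) (X : Fin M → R3)
  (Z : Fin M → ℝ) (z E : ℝ) (u : Wf n), 1 ≤ z → 1 ≤ M → Nuc n Z → (∀ j, Z j ≤ z) → Sep X d →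
  E + nucR X Z ≤ 0 → Sm u → Anti u → PW.sq u ≤ 2 → resM X Z E u ≤ 1 →
  kin u ≤ C * (z ^ (7 / 3 : ℝ) * M)

/-- row DRZ (TUZ, ATZ, QHM, INTM) -/
def ST_DRZ : Prop := ∀ d : ℝ, 0 < d → ∃ C : ℝ, 0 < C ∧ ∀ (n M : ℕ) (X : Fin M → R3)
  (Z : Fin M → ℝ) (z E : ℝ) (u : Wf n), 1 ≤ z → 1 ≤ M → Nuc n Z → (∀ j, Z j ≤ z) → Sep X d →
  E + nucR X Z ≤ 0 → Sm u → Anti u → PW.sq u ≤ 2 → resM X Z E u ≤ 1 →
  kin u ≤ C * (z ^ (7 / 3 : ℝ) * M) ∧ z * one (near1 X d) u ≤ C * (z ^ (7 / 3 : ℝ) * M) ∧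
  QM X Z u - kin u + nucR X Z * PW.sq u + 8 * (1 + z) / d * n * PW.sq u +
    z * one (near1 X d) u ≤ C * (z ^ (7 / 3 : ℝ) * M)

/-- row DRI (DRZ, ESB, AED, INTM, INZ): integrate ESB with `b = d / 8` (`integral_mono_of_nonneg`:
no measurability of the smaller function is needed) -/
def ST_DRI : Prop := ∀ d : ℝ, 0 < d → ∃ C : ℝ, 0 < C ∧ ∀ (n M : ℕ) (X : Fin M → R3)
  (Z : Fin M → ℝ) (z E : ℝ) (u : Wf n), 1 ≤ z → 1 ≤ M → Nuc n Z → (∀ j, Z j ≤ z) → Sep X d →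
  E + nucR X Z ≤ 0 → Sm u → Anti u → PW.sq u ≤ 2 → resM X Z E u ≤ 1 →
  ∑ s, ∫ x, (1 / 2 * Dn (d / 8) X Z x + Rem (d / 8) x) * u s x ^ 2 ≤ C * (z ^ (7 / 3 : ℝ) * M)

end Pool.Agent.Helper26.HN
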