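import Pool.Agent.Helper26.HN.Stmts

/-!
# Heavy nuclei, part B: the interface
-/

set_option autoImplicit false

namespace Pool.Agent.Helper26.HN

open MeasureTheory Filter Pool.Agent.Helper95 Pool.Agent.Helper95.PW Pool.Agent.Helper95.LN

/-- row NRB: as NRL, closed balls -/
def ST_NRB : Prop := ∃ C : ℝ, 0 < C ∧ ∀ (n M : ℕ) (X : Fin M → R3) (d ρ : ℝ) (u : Wf n),
  Sep X d → 0 < ρ → ρ ≤ d → Sm u → Anti u → PW.sq u ≤ 2 →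
  ∑ j, one (ballc (X j) ρ) u ≤
    C * (M + (M : ℝ) ^ (2 / 5 : ℝ) * (kin u * ρ ^ 2) ^ (3 / 5 : ℝ))

/-- row TUPZ (TUZ, DRZ) -/
def ST_TUPZ : Prop := ∀ d : ℝ, 0 < d → ∃ C : ℝ, 0 < C ∧ ∀ (n M : ℕ) (X : Fin M → R3)
  (Z : Fin M → ℝ) (z E : ℝ) (u : Wf n), 1 ≤ z → 1 ≤ M → Nuc n Z → (∀ j, Z j ≤ z) → Sep X d →
  E + nucR X Z ≤ 0 → Sm u → Anti u → PW.sq u ≤ 2 → resM X Z E u ≤ 1 / 2 →
  kin u ≤ C * (M * z ^ (7 / 3 : ℝ)) ∧ z * one (near1 X d) u ≤ C * (M * z ^ (7 / 3 : ℝ))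

/-- row TUPG (TUPZ, APXM, LMTM): limit of smooth functions as in Helper77/CF/TLG.lean -/
def ST_TUPG : Prop := ∀ d : ℝ, 0 < d → ∃ C : ℝ, 0 < C ∧ ∀ (n M : ℕ) (X : Fin M → R3)
  (Z : Fin M → ℝ) (z E : ℝ) (φ : Wf n) (G : Fin n → Fin 3 → Wf n), 1 ≤ z → 1 ≤ M → Nuc n Z →
  (∀ j, Z j ≤ z) → Sep X d → E + nucR X Z ≤ 0 → GroundM n X Z E φ G →
  kinG G ≤ C * (M * z ^ (7 / 3 : ℝ))

end Pool.Agent.Helper26.HN
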