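import Pool.Agent.Helper26.HN.Stmts2

/-! # Rows TUPZ, TUPG -/

set_option autoImplicit false

namespace Pool.Agent.Helper26.HN

open MeasureTheory Filter Pool.Agent.Helper95 Pool.Agent.Helper95.PW Pool.Agent.Helper95.LN

theorem TUPZ (h1 : ST_DRZ) : ST_TUPZ := by
  intro d hd
  obtain ⟨C, hC, h⟩ := h1 d hd
  refine ⟨C, hC, ?_⟩
  intro n M X Z z E u hz hM hN hZ hS hE hu ha hq hr
  obtain ⟨a, b, -⟩ := h n M X Z z E u hz hM hN hZ hS hE hu ha hq (by linarith)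
  rw [mul_comm (M : ℝ)]
  exact ⟨a, b⟩

theorem TUPG (h1 : ST_TUPZ) (h2 : ST_APXM) (h3 : ST_LMTM) : ST_TUPG := by
  intro d hd
  obtain ⟨C, hC, h⟩ := h1 d hd
  refine ⟨C, hC, ?_⟩
  intro n M X Z z E φ G hz hM hN hZ hS hE hG
  obtain ⟨u, hu⟩ := h2 n M X Z E φ G hG
  obtain ⟨l1, l2, _⟩ := h3 n M X Z E φ G u hG hu
  obtain ⟨hsm, _, _, _, hres⟩ := hu
  have e1 : ∀ᶠ j in atTop, PW.sq (u j) ≤ 2 :=
    l1.eventually_le_const (by norm_num : (1:ℝ) < 2)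
  have e3 : ∀ᶠ j in atTop, resM X Z E (u j) ≤ 1 / 2 := hres.eventually_le_const (by norm_num)
  refine le_of_tendsto l2 ?_
  filter_upwards [e1, e3] with j hj1 hj3
  exact (h n M X Z z E (u j) hz hM hN hZ hS hE (hsm j).1 (hsm j).2 hj1 hj3).1

end Pool.Agent.Helper26.HN
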